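import Pool.Agent.Q188.Bike.Trans

/-!
# MP_08099c_gt, Q1: one transition from hyperbolic to elliptic bicycle monodromy

`Γ` is a simple, strictly convex closed front track (of class `C^2`, parametrized by arc length and
counterclockwise, of length `L`: `Q188.Bike.ConvexTrack`).  There is `ℓ₀ > 0` such that the monodromy
of `Γ` is hyperbolic for all `0 < ℓ < ℓ₀` and elliptic for all `ℓ > ℓ₀`.

Idea.  If the monodromy at `ℓ₁` is not elliptic, there is a closed solution; by the theorem on the
rotation number of closed rear tracks (MP_b4625f_gt) its angle `ψ` relative to the tangent is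
periodic and stays in the strip `0 < ψ < π` (up to a multiple of `2π`).  As `sin ψ > 0`, it is a
strict sub-solution of the equation for every `ℓ₂ < ℓ₁`, and the circle map for `ℓ₂` has two fixed
points and is not the identity: it is hyperbolic.  A closed solution forces `ℓ ≤ L / 2π`, and
`ψ = π / 2` is a strict sub-solution when `1 / ℓ` exceeds the curvature.
-/

set_option autoImplicit false

namespace Pool.Agent.Results.MP_08099c_gt.SingleTransition

open Q188.Bike

/-- **For every simple strictly convex closed front track the monodromy is hyperbolic below a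
critical length `ℓ₀ > 0` and elliptic above it.** -/
theorem result (Γ : ℝ → EuclideanSpace ℝ (Fin 2)) (L : ℝ) (hΓ : ConvexTrack Γ L) :
    ∃ ℓ₀ : ℝ, 0 < ℓ₀ ∧ (∀ ℓ : ℝ, 0 < ℓ → ℓ < ℓ₀ → Hyperbolic Γ L ℓ) ∧
      ∀ ℓ : ℝ, ℓ₀ < ℓ → Elliptic Γ L ℓ :=
  transition hΓ

end Pool.Agent.Results.MP_08099c_gt.SingleTransition
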